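import Pool.Agent.W946.RBST

/-!
# The unweighted red-blue `s`-`t` cut problem in undirected graphs is NP-complete

The reduction is from the clique problem.  Let `G` be a graph with `n` vertices and `m` edges and
let `k ≥ 2`.  The new graph has the vertices of `G`, two more vertices `s`, `t`, and two vertices
`y`, `y'` for every edge `vw` of `G`.  There is a red edge from `s` to every vertex of `G`; for
every edge `vw` of `G` there are the blue edges `vw`, `vy`, `yt`, `wy'`, `y't`.  If `U` is the set
of the vertices of `G` on the side of `t`, then there are `|U|` red cut edges and at least
`2 (m - e(U))` blue cut edges, with equality for a suitable choice of the sides of the vertices `y`,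
`y'`, where `e(U)` is the number of the edges of `G` inside `U`.  So `G` has a clique of size `k`
iff there is an `s`-`t` cut with at most `k` red edges and at most `2 m - k (k - 1)` blue edges.
-/

namespace Pool.Agent.Results.MP_ad21dd_lc.NPComplete

open Pool.Agent.NPC Pool.Agent.W946

/-- **The unweighted red-blue `s`-`t` cut problem in undirected graphs is NP-complete**: it is in
`NP`, and every language in `NP` has a polynomial-time many-one reduction to it. -/
theorem result : InNPP RedBlueSTCut ∧ NPHardP RedBlueSTCut :=
  ⟨inNPP_redBlueSTCut, npHardP_redBlueSTCut⟩

end Pool.Agent.Results.MP_ad21dd_lc.NPComplete
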